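import Mathlib

namespace Pool.Agent.H.MP_34deb4_co

open Matrix Finset

section graded
variable {ι : Type} [Fintype ι] [DecidableEq ι] (D N : Matrix ι ι ℝ)

noncomputable def F : ℕ → ℤ → Matrix ι ι ℝ
  | 0, k => if k = 0 then 1 else 0
  | d + 1, k => F d k * D + F d (k - 1) * N + F d (k + 1) * Nᵀ

theorem F_left (d : ℕ) : ∀ k, F D N (d + 1) k =
    D * F D N d k + N * F D N d (k - 1) + Nᵀ * F D N d (k + 1) := by
  induction d with
  | zero => intro k; simp only [F]; split_ifs <;> simp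
  | succ d ih =>
    intro k
    rw [F, ih k, ih (k - 1), ih (k + 1), ← ih k, ← ih (k - 1), ← ih (k + 1)]
    conv_lhs => rw [ih k, ih (k - 1), ih (k + 1)]
    simp only [F, sub_add_cancel, add_sub_cancel_right]
    noncomm_ring

theorem F_zero (d : ℕ) : ∀ k : ℤ, d < k → F D N d k = 0 := by
  induction d with
  | zero => intro k hk; simp only [F]; rw [if_neg (by omega)]
  | succ d ih =>
    intro k hk
    rw [F, ih k (by omega), ih (k - 1) (by omega), ih (k + 1) (by omega)]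
    simp

noncomputable def S (d L : ℕ) : Matrix ι ι ℝ := ∑ k ∈ range L, F D N d (k + 1)

theorem S_right (d L : ℕ) : S D N (d + 1) L = S D N d L * (D + N + Nᵀ) + F D N d 0 * N -
    F D N d 1 * Nᵀ - F D N d L * N + F D N d (L + 1) * Nᵀ := by
  induction L with
  | zero => simp [S]
  | succ L ih =>
    simp only [S, sum_range_succ] at ih ⊢
    rw [ih, F]
    simp only [add_sub_cancel_right, Nat.cast_add, Nat.cast_one]
    noncomm_ring

theorem S_left (d L : ℕ) : S D N (d + 1) L = (D + N + Nᵀ) * S D N d L + N * F D N d 0 -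
    Nᵀ * F D N d 1 - N * F D N d L + Nᵀ * F D N d (L + 1) := by
  induction L with
  | zero => simp [S]
  | succ L ih =>
    simp only [S, sum_range_succ] at ih ⊢
    rw [ih, F_left]
    simp only [add_sub_cancel_right, Nat.cast_add, Nat.cast_one]
    noncomm_ring

theorem S_succ {d L : ℕ} (h : d ≤ L) : S D N d (L + 1) = S D N d L := by
  simp only [S, sum_range_succ]
  rw [F_zero D N d _ (by omega), add_zero]

theorem S_zero (L : ℕ) : S D N 0 L = 0 :=
  sum_eq_zero fun k _ => F_zero D N 0 _ (by omega)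

omit [DecidableEq ι] in
theorem tr_lemma {A X B R T : Matrix ι ι ℝ} (hc : A * X = X * A) (hA : A = B + R)
    (h : trace (X * (B * T - T * B)) = 0) : trace (X * (T * R)) = trace (X * (R * T)) := by
  have h1 : trace (X * (A * T)) = trace (X * (T * A)) := by
    rw [← Matrix.mul_assoc, ← hc, Matrix.mul_assoc, trace_mul_comm, Matrix.mul_assoc]
  rw [hA] at h1
  simp only [Matrix.add_mul, Matrix.mul_add, Matrix.mul_sub, trace_add, trace_sub] at h h1
  linarith

end graded

def Deg (m : ℕ) {N : ℕ} (k : ℤ) (T : Matrix (Fin N) (Fin N) ℝ) : Prop :=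
  ∀ i j, T i j ≠ 0 → (i = j ∧ k = 0) ∨ (i.val < m ∧ j.val < m ∧ (m : ℤ) ∣ j.val - i.val - k)

section deg
variable {m N : ℕ} {k l : ℤ} {T U : Matrix (Fin N) (Fin N) ℝ}

theorem Deg.add (h : Deg m k T) (h' : Deg m k U) : Deg m k (T + U) := by
  intro i j hij
  by_cases h1 : T i j = 0
  · exact h' i j (by simpa [h1] using hij)
  · exact h i j h1

theorem Deg.mul (h : Deg m k T) (h' : Deg m l U) : Deg m (k + l) (T * U) := by
  intro i j hij
  rw [Matrix.mul_apply] at hij
  obtain ⟨p, -, hp⟩ := exists_ne_zero_of_sum_ne_zero hij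
  rcases h i p (left_ne_zero_of_mul hp) with ⟨rfl, rfl⟩ | ⟨a1, a2, a3⟩ <;>
    rcases h' _ j (right_ne_zero_of_mul hp) with ⟨rfl, rfl⟩ | ⟨b1, b2, b3⟩
  · exact Or.inl ⟨rfl, rfl⟩
  · exact Or.inr ⟨b1, b2, by simpa using b3⟩
  · exact Or.inr ⟨a1, a2, by simpa using a3⟩
  · refine Or.inr ⟨a1, b2, ?_⟩
    exact (dvd_add a3 b3).trans (dvd_of_eq (by ring))

theorem Deg.tr (h : Deg m k T) : Deg m (-k) Tᵀ := by
  intro i j hij
  rcases h j i hij with ⟨rfl, rfl⟩ | ⟨a1, a2, a3⟩
  · exact Or.inl ⟨rfl, rfl⟩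
  · refine Or.inr ⟨a2, a1, ?_⟩
    exact a3.neg_right.trans (dvd_of_eq (by ring))

theorem small_dvd {m : ℕ} {t : ℤ} (h : (m : ℤ) ∣ t) (h1 : -(m : ℤ) < t) (h2 : t < m) : t = 0 :=
  Int.eq_zero_of_abs_lt_dvd h (abs_lt.2 ⟨h1, h2⟩)

theorem Deg.eq (h : Deg m 0 T) {i j : Fin N} (hij : T i j ≠ 0) : i = j := by
  rcases h i j hij with h1 | ⟨a1, a2, a3⟩
  · exact h1.1
  · have := small_dvd a3 (by omega) (by omega)
    exact Fin.ext (by omega)

theorem Deg.one (h : Deg m 1 T) {i j : Fin N} (hij : T i j ≠ 0) :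
    (i.val + 1 = j.val ∧ j.val < m) ∨ (i.val + 1 = m ∧ j.val = 0) := by
  rcases h i j hij with h1 | ⟨a1, a2, a3⟩
  · omega
  · by_cases h2 : i.val + 1 = m ∧ j.val = 0
    · exact Or.inr h2
    · have := small_dvd a3 (by omega) (by omega)
      omega

theorem Deg.mulVec (h : Deg m 0 T) (y : Fin N → ℝ) (i : Fin N) : (T *ᵥ y) i = T i i * y i := by
  rw [Matrix.mulVec, dotProduct, sum_eq_single i]
  · intro j _ hj
    by_cases h1 : T i j = 0
    · simp [h1]
    · exact absurd (h.eq h1).symm hj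
  · simp

theorem deg_F {D Nn : Matrix (Fin N) (Fin N) ℝ} (hD : Deg m 0 D) (hN : Deg m 1 Nn) (d : ℕ) :
    ∀ k, Deg m k (F D Nn d k) := by
  induction d with
  | zero =>
    intro k i j hij
    simp only [F] at hij
    split_ifs at hij with h
    · exact Or.inl ⟨by by_contra hh; exact hij (Matrix.one_apply_ne hh), h⟩
    · simp at hij
  | succ d ih =>
    intro k
    have h1 := (ih k).mul hD
    have h2 := (ih (k - 1)).mul hN
    have h3 := (ih (k + 1)).mul hN.tr
    simp only [add_zero, sub_add_cancel, add_neg_cancel_right] at h1 h2 h3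
    exact (h1.add h2).add h3

end deg

section phi
variable {m N : ℕ} {D Nn : Matrix (Fin N) (Fin N) ℝ} (o : Fin N)

def Phi (D Nn : Matrix (Fin N) (Fin N) ℝ) (y : Fin N → ℝ) : Prop :=
  ∀ d L, d ≤ L → ((S D Nn d L - (S D Nn d L)ᵀ) *ᵥ y) o = 0

theorem sigma_rec (hD : Deg m 0 D) (hDt : Dᵀ = D) (hN : Deg m 1 Nn) {y : Fin N → ℝ}
    (hy : y o = 0) {d L : ℕ} (h : d < L) :
    ((S D Nn (d + 1) L - (S D Nn (d + 1) L)ᵀ) *ᵥ y) o =
      ((S D Nn d L - (S D Nn d L)ᵀ) *ᵥ ((D + Nn + Nnᵀ) *ᵥ y)) o +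
        F D Nn d 0 o o * ((Nn - Nnᵀ) *ᵥ y) o := by
  have e1 := S_right D Nn d L
  have e2 := congrArg transpose (S_left D Nn d L)
  rw [F_zero D Nn d L (by omega), F_zero D Nn d (L + 1) (by omega)] at e1 e2
  simp only [Matrix.zero_mul, Matrix.mul_zero, sub_zero, add_zero, transpose_add, transpose_sub,
    transpose_mul, transpose_transpose, hDt] at e1 e2
  have f0 := deg_F hD hN d 0
  have f1 := deg_F hD hN d 1
  have g1 : Deg m 0 (F D Nn d 1 * Nnᵀ) := by simpa using f1.mul hN.tr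
  have g2 : Deg m 0 ((F D Nn d 1)ᵀ * Nn) := by simpa using f1.tr.mul hN
  have g3 : Deg m 0 (F D Nn d 0)ᵀ := by simpa using f0.tr
  rw [e2, e1, add_right_comm D Nnᵀ Nn]
  simp only [Matrix.sub_mulVec, Matrix.add_mulVec, Pi.add_apply, Pi.sub_apply,
    g1.mulVec, g2.mulVec, hy, mul_zero]
  simp only [← Matrix.mulVec_mulVec, f0.mulVec, g3.mulVec, transpose_apply, Matrix.add_mulVec]
  ring

theorem Phi.delta (hD : Deg m 0 D) (hDt : Dᵀ = D) (hN : Deg m 1 Nn) {y : Fin N → ℝ}
    (hy : y o = 0) (h : Phi o D Nn y) : ((Nn - Nnᵀ) *ᵥ y) o = 0 := by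
  have := sigma_rec o hD hDt hN hy (d := 0) (L := 1) (by omega)
  rw [h 1 1 le_rfl, S_zero] at this
  simpa [F] using this.symm

theorem Phi.step (hD : Deg m 0 D) (hDt : Dᵀ = D) (hN : Deg m 1 Nn) {y : Fin N → ℝ}
    (hy : y o = 0) (h : Phi o D Nn y) (c : ℝ) :
    Phi o D Nn ((D + Nn + Nnᵀ) *ᵥ y - c • Pi.single o 1) := by
  intro d L hd
  have := sigma_rec o hD hDt hN hy (d := d) (L := L + 1) (by omega)
  rw [h _ _ (by omega), h.delta o hD hDt hN hy, S_succ D Nn hd] at this
  rw [Matrix.mulVec_sub, Matrix.mulVec_smul, Pi.sub_apply, Pi.smul_apply]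
  simp only [Matrix.mulVec_single_one, Matrix.col_apply, Matrix.sub_apply, transpose_apply,
    sub_self, smul_zero]
  linarith

end phi

theorem sweep (y : ℕ → ℕ → ℝ) (M : ℕ) (h0 : ∀ k, y k 0 = 0) (h1 : ∀ k, y k 1 = 0)
    (hs : ∀ i k, 1 ≤ i → i < M → 1 ≤ k → y k (i - 1) = 0 → y k i = 0 → y (k - 1) i = 0 →
      y (k + 1) i = 0 → y k (i + 1) = 0) : ∀ i ≤ M, ∀ k, i ≤ k + 1 → y k i = 0 := by
  intro i
  induction i using Nat.strong_induction_on with
  | _ i ih =>
    intro hi k hk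
    rcases i with _ | _ | i
    · exact h0 k
    · exact h1 k
    · exact hs (i + 1) k (by omega) (by omega) (by omega) (ih _ (by omega) (by omega) _ (by omega))
        (ih _ (by omega) (by omega) _ (by omega)) (ih _ (by omega) (by omega) _ (by omega))
        (ih _ (by omega) (by omega) _ (by omega))

theorem chain (z : ℕ → ℕ → ℝ) (L : ℕ) (hd : ∀ i, z i i = 0) (he : ∀ i < L, z i (i + 1) = 0)
    (hs : ∀ i j, i < j → j < L → (i = 0 ∨ z (i - 1) j = 0) → z i j = 0 → z (i + 1) j = 0 →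
      z i (j - 1) = 0 → z i (j + 1) = 0) : ∀ d i, i + d ≤ L → z i (i + d) = 0 := by
  intro d
  induction d using Nat.strong_induction_on with
  | _ d ih =>
    rcases d with _ | _ | d
    · exact fun i _ => hd i
    · exact fun i hi => he i (by omega)
    · intro i
      induction i with
      | zero =>
        intro hi
        refine hs 0 (0 + (d + 1)) (by omega) (by omega) (Or.inl rfl) (ih _ (by omega) _ (by omega))
          ?_ ?_
        · have := ih d (by omega) 1 (by omega)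
          rwa [show 1 + d = 0 + (d + 1) by omega] at this
        · exact ih d (by omega) 0 (by omega)
      | succ i ih2 =>
        intro hi
        refine hs (i + 1) (i + 1 + (d + 1)) (by omega) (by omega) (Or.inr ?_)
          (ih _ (by omega) _ (by omega)) ?_ ?_
        · have := ih2 (by omega)
          rwa [show i + (d + 1 + 1) = i + 1 + (d + 1) by omega] at this
        · have := ih d (by omega) (i + 1 + 1) (by omega)
          rwa [show i + 1 + 1 + d = i + 1 + (d + 1) by omega] at this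
        · exact ih d (by omega) (i + 1) (by omega)

def rel (m i j : ℕ) : Prop := (i + 1 = j ∧ j ≠ m) ∨ (i = 0 ∧ (j + 1 = m ∨ j = m))
def adj (m i j : ℕ) : Prop := i ≠ j ∧ (rel m i j ∨ rel m j i)

structure Pat (m N : ℕ) (a : ℕ → ℕ → ℝ) : Prop where
  za : ∀ i j, i ≠ j → ¬ adj m i j → a i j = 0
  oa : ∀ i j, N ≤ j → a i j = 0

theorem sum_supp {N : ℕ} (f : ℕ → ℝ) (s : Finset ℕ) (h1 : ∀ k, k ∉ s → f k = 0)
    (h2 : ∀ k, N ≤ k → f k = 0) : ∑ k ∈ range N, f k = ∑ k ∈ s, f k := by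
  rw [← sum_subset (s₁ := range N ∩ s) inter_subset_left, sum_subset inter_subset_right]
  · intro k h3 h4
    exact h2 k (by simpa [h3] using h4)
  · intro k h3 h4
    exact h1 k (by simpa [mem_range.1 h3] using h4)

def prv (m p : ℕ) : ℕ := if p = m then 0 else p - 1
def nxt (m i : ℕ) : ℕ := if i + 1 = m then 0 else i + 1

theorem Pat.rowT {m N : ℕ} {a : ℕ → ℕ → ℝ} (h : Pat m N a) (hm : 3 ≤ m) {p : ℕ} (hp : m ≤ p)
    (y : ℕ → ℝ) : ∑ k ∈ range N, a p k * y k =
      a p (prv m p) * y (prv m p) + a p p * y p + a p (p + 1) * y (p + 1) := by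
  have : prv m p < p := by unfold prv; split_ifs <;> omega
  rw [sum_supp _ {prv m p, p, p + 1}, sum_insert (by simp; omega), sum_pair (by omega), add_assoc]
  · intro k hk
    simp only [mem_insert, mem_singleton, not_or, prv] at hk
    rw [h.za p k (by omega), zero_mul]
    simp only [adj, rel]
    split_ifs at hk <;> omega
  · intro k hk
    rw [h.oa p k hk, zero_mul]

theorem Pat.rowS {m N : ℕ} {a : ℕ → ℕ → ℝ} (h : Pat m N a) (hm : 3 ≤ m) {p : ℕ} (hp : 1 ≤ p)
    (hp' : p < m) (y : ℕ → ℝ) : ∑ k ∈ range N, a p k * y k =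
      a p (p - 1) * y (p - 1) + a p p * y p + a p (nxt m p) * y (nxt m p) := by
  have : nxt m p ≠ p ∧ nxt m p ≠ p - 1 := by unfold nxt; split_ifs <;> omega
  rw [sum_supp _ {p - 1, p, nxt m p}, sum_insert (by simp; omega), sum_pair (by omega), add_assoc]
  · intro k hk
    simp only [mem_insert, mem_singleton, not_or, nxt] at hk
    rw [h.za p k (by omega), zero_mul]
    simp only [adj, rel]
    split_ifs at hk <;> omega
  · intro k hk
    rw [h.oa p k hk, zero_mul]

theorem Pat.row0 {m N : ℕ} {a : ℕ → ℕ → ℝ} (h : Pat m N a) (hm : 3 ≤ m) (y : ℕ → ℝ) :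
    ∑ k ∈ range N, a 0 k * y k =
      a 0 0 * y 0 + a 0 1 * y 1 + a 0 (m - 1) * y (m - 1) + a 0 m * y m := by
  rw [sum_supp _ {0, 1, m - 1, m}, sum_insert (by simp; omega), sum_insert (by simp; omega),
    sum_pair (by omega)]
  · ring
  · intro k hk
    simp only [mem_insert, mem_singleton, not_or] at hk
    rw [h.za 0 k (by omega), zero_mul]
    simp only [adj, rel]
    omega
  · intro k hk
    rw [h.oa 0 k hk, zero_mul]

end Pool.Agent.H.MP_34deb4_co
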