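import Pool.Agent.H.MP_34deb4_co.A

namespace Pool.Agent.H.MP_34deb4_co

open Matrix Finset

structure Hyp (m n : ℕ) (a x : ℕ → ℕ → ℝ) : Prop extends Pat m (m + n) a where
  sa : ∀ i j, a i j = a j i
  nz : ∀ i j, i < m + n → j < m + n → adj m i j → a i j ≠ 0
  sx : ∀ i j, x i j = x j i
  xd : ∀ i, x i i = 0
  xe : ∀ i j, adj m i j → x i j = 0
  ox : ∀ i j, m + n ≤ j → x i j = 0
  cm : ∀ i j, ∑ k ∈ range (m + n), a i k * x k j = ∑ k ∈ range (m + n), a j k * x k i

def mx (N : ℕ) (f : ℕ → ℕ → ℝ) : Matrix (Fin N) (Fin N) ℝ := Matrix.of fun i j => f i j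

theorem mx_mulVec {N : ℕ} (f : ℕ → ℕ → ℝ) (y : ℕ → ℝ) (i : Fin N) :
    (mx N f *ᵥ fun k => y k) i = ∑ k ∈ range N, f i k * y k := by
  rw [← Fin.sum_univ_eq_sum_range (fun k => f i k * y k)]
  rfl

variable {m n : ℕ} {a x : ℕ → ℕ → ℝ}

theorem Hyp.comm (h : Hyp m n a x) : mx (m + n) a * mx (m + n) x = mx (m + n) x * mx (m + n) a := by
  ext i j
  have := h.cm i j
  rw [← Fin.sum_univ_eq_sum_range (fun k => a i k * x k j),
    ← Fin.sum_univ_eq_sum_range (fun k => a j k * x k i)] at this
  simp only [Matrix.mul_apply, mx, of_apply, this]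
  exact sum_congr rfl fun k _ => by rw [h.sa, h.sx, mul_comm]

theorem Hyp.tr0 (h : Hyp m n a x) {T : Matrix (Fin (m + n)) (Fin (m + n)) ℝ}
    (hT : ∀ i j, T i j ≠ 0 → i = j ∨ adj m i j) : trace (mx (m + n) x * T) = 0 := by
  simp only [trace, diag_apply, Matrix.mul_apply]
  refine sum_eq_zero fun i _ => sum_eq_zero fun j _ => ?_
  by_cases h1 : T j i = 0
  · simp [h1]
  · rcases hT j i h1 with rfl | h2
    · simp [mx, h.xd]
    · simp [mx, h.sx i j, h.xe _ _ h2]

theorem Hyp.ch (h : Hyp m n a x) (hm : 3 ≤ m) {p q : ℕ} (hp : p = 0 ∨ m ≤ p)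
    (hq : q = 0 ∨ m ≤ q) : x p q = 0 := by
  set c : ℕ → ℕ := fun i => if i = n then 0 else m + n - 1 - i with hc
  have key := chain (fun i j => x (c i) (c j)) n (fun i => h.xd _) (fun i hi => by
    apply h.xe
    simp only [hc, adj, rel]
    split_ifs <;> omega) (fun i j h1 h2 h3 h4 h5 h6 => by
      have e := h.cm (c i) (c j)
      have ci : c i = m + n - 1 - i := if_neg (by omega)
      have cj : c j = m + n - 1 - j := if_neg (by omega)
      have p1 : prv m (c i) = c (i + 1) := by simp only [hc, prv]; split_ifs <;> omega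
      have p2 : prv m (c j) = c (j + 1) := by simp only [hc, prv]; split_ifs <;> omega
      have p3 : c j + 1 = c (j - 1) := by simp only [hc]; split_ifs <;> omega
      rw [h.rowT hm (by omega), h.rowT hm (by omega), p1, p2, p3, h4, h5, h.sx (c j), h4,
        h.sx (c (j - 1)), h6, h.sx (c (j + 1))] at e
      have p4 : a (c i) (c i + 1) * x (c i + 1) (c j) = 0 := by
        rcases h3 with rfl | h3
        · rw [h.oa _ _ (by omega), zero_mul]
        · by_cases h7 : i = 0
          · rw [h.oa _ _ (by omega), zero_mul]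
          · rw [show c i + 1 = c (i - 1) by simp only [hc]; split_ifs <;> omega, h3, mul_zero]
      have p5 := h.nz (c j) (c (j + 1)) (by omega) (by simp only [hc]; split_ifs <;> omega)
        (by simp only [hc, adj, rel]; split_ifs <;> omega)
      rw [p4] at e
      simpa [p5] using e.symm)
  have k2 : ∀ i ≤ n, ∀ j ≤ n, x (c i) (c j) = 0 := by
    intro i hi j hj
    rcases le_total i j with h1 | h1
    · simpa [Nat.add_sub_cancel' h1] using key (j - i) i (by omega)
    · rw [h.sx]; simpa [Nat.add_sub_cancel' h1] using key (i - j) j (by omega)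
  by_cases h1 : m + n ≤ q
  · exact h.ox _ _ h1
  by_cases h2 : m + n ≤ p
  · rw [h.sx]; exact h.ox _ _ h2
  obtain ⟨i, hi, rfl⟩ : ∃ i ≤ n, c i = p := by
    rcases hp with rfl | hp
    · exact ⟨n, le_rfl, by simp [hc]⟩
    · exact ⟨m + n - 1 - p, by omega, by simp only [hc]; split_ifs <;> omega⟩
  obtain ⟨j, hj, rfl⟩ : ∃ i ≤ n, c i = q := by
    rcases hq with rfl | hq
    · exact ⟨n, le_rfl, by simp [hc]⟩
    · exact ⟨m + n - 1 - q, by omega, by simp only [hc]; split_ifs <;> omega⟩
  exact k2 i hi j hj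

noncomputable def DD (m n : ℕ) (a : ℕ → ℕ → ℝ) := mx (m + n) fun i j =>
  if i = j ∧ i < m then a i j else 0
noncomputable def NN (m n : ℕ) (a : ℕ → ℕ → ℝ) := mx (m + n) fun i j =>
  if (i + 1 = j ∧ j < m) ∨ (i + 1 = m ∧ j = 0) then a i j else 0
noncomputable def JJ (m n : ℕ) (a : ℕ → ℕ → ℝ) := mx (m + n) fun i j =>
  if 1 ≤ i ∧ i < m ∧ 1 ≤ j ∧ j < m then a i j else 0
def col (N : ℕ) (x : ℕ → ℕ → ℝ) (p : ℕ) : Fin N → ℝ := fun i => x i p

theorem deg_DD : Deg m 0 (DD m n a) := by
  intro i j hij
  simp only [DD, mx, of_apply, ne_eq, ite_eq_right_iff, Classical.not_imp] at hij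
  exact Or.inl ⟨Fin.ext hij.1.1, rfl⟩

theorem deg_NN : Deg m 1 (NN m n a) := by
  intro i j hij
  simp only [NN, mx, of_apply, ne_eq, ite_eq_right_iff, Classical.not_imp] at hij
  refine Or.inr ⟨by omega, by omega, ?_⟩
  rcases hij.1 with h | h
  · exact ⟨0, by omega⟩
  · exact ⟨-1, by omega⟩

theorem DD_tr : (DD m n a)ᵀ = DD m n a := by
  ext i j
  simp only [DD, mx, of_apply, transpose_apply]
  by_cases h : i = j
  · rw [h]
  · rw [if_neg, if_neg] <;> exact fun hh => h (Fin.ext (by omega))

theorem Hyp.BB (h : Hyp m n a x) (hm : 3 ≤ m) : DD m n a + NN m n a + (NN m n a)ᵀ =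
    mx (m + n) fun i j => if i < m ∧ j < m then a i j else 0 := by
  ext i j
  simp only [DD, NN, mx, of_apply, transpose_apply, Matrix.add_apply]
  have := h.za i j
  simp only [adj, rel] at this
  rw [h.sa j i]
  split_ifs <;> first | omega | (simp; done) | (rw [this (by omega) (by omega)]; simp)

theorem Hyp.phiA (h : Hyp m n a x) (hm : 3 ≤ m) (hn : 1 ≤ n) :
    Phi ⟨0, by omega⟩ (DD m n a) (NN m n a) (col (m + n) x m) := by
  intro d L hd
  rw [← S_succ _ _ hd]
  set T := S (DD m n a) (NN m n a) d (L + 1) with hT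
  set o : Fin (m + n) := ⟨0, by omega⟩
  set t : Fin (m + n) := ⟨m, by omega⟩
  have f0 := deg_F (deg_DD (n := n) (a := a)) (deg_NN (m := m) (a := a)) d 0
  have f1 := deg_F (deg_DD (n := n) (a := a)) (deg_NN (m := m) (a := a)) d 1
  have d0 : ∀ {U}, Deg m 0 U → trace (mx (m + n) x * U) = 0 := fun hU =>
    h.tr0 fun i j hij => Or.inl (hU.eq hij)
  have d1 : ∀ {U}, Deg m 1 U → trace (mx (m + n) x * U) = 0 := fun hU =>
    h.tr0 fun i j hij => Or.inr (by have := hU.one hij; simp only [adj, rel]; omega)
  have e1 := S_right (DD m n a) (NN m n a) d (L + 1)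
  rw [S_left, F_zero _ _ d (L + 1 : ℕ) (by omega), F_zero _ _ d ((L + 1 : ℕ) + 1) (by omega),
    ← hT] at e1
  set B := DD m n a + NN m n a + (NN m n a)ᵀ with hB
  have e2 : B * T - T * B = F (DD m n a) (NN m n a) d 0 * NN m n a -
      F (DD m n a) (NN m n a) d 1 * (NN m n a)ᵀ - NN m n a * F (DD m n a) (NN m n a) d 0 +
      (NN m n a)ᵀ * F (DD m n a) (NN m n a) d 1 := by
    linear_combination (norm := noncomm_ring) e1
  have e3 := tr_lemma (B := B) (R := mx (m + n) a - B) (T := T) h.comm (by abel) (by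
    rw [e2]
    simp only [Matrix.mul_add, Matrix.mul_sub, trace_add, trace_sub]
    rw [d1 (by simpa using f0.mul deg_NN), d0 (by simpa using f1.mul deg_NN.tr),
      d1 (by simpa using deg_NN.mul f0), d0 (by simpa using deg_NN.tr.mul f1)]
    ring)
  have sT : ∀ i j, T i j ≠ 0 → i.val < m ∧ j.val < m := by
    intro i j hij
    rw [hT, S, Matrix.sum_apply] at hij
    obtain ⟨k, -, hk⟩ := exists_ne_zero_of_sum_ne_zero hij
    rcases deg_F deg_DD deg_NN d _ i j hk with h1 | h1
    · omega
    · exact ⟨h1.1, h1.2.1⟩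
  have R1 : ∀ k i : Fin (m + n), k.val < m → (mx (m + n) a - B) k i =
      if k = o ∧ i = t then a 0 m else 0 := by
    intro k i hk
    rw [hB, h.BB hm]
    simp only [mx, Matrix.sub_apply, of_apply, Fin.ext_iff, o, t]
    have := h.za k i
    simp only [adj, rel] at this
    split_ifs with h1 h2 h2
    · omega
    · simp
    · rw [h2.1, h2.2]; simp
    · rw [this (by omega) (by omega)]; simp
  have R2 : ∀ k i : Fin (m + n), (mx (m + n) a - B) k i = (mx (m + n) a - B) i k := by
    intro k i
    rw [hB, h.BB hm]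
    simp only [mx, Matrix.sub_apply, of_apply, h.sa k i, and_comm]
  have m1 : T * (mx (m + n) a - B) = Matrix.of fun j i => if i = t then T j o * a 0 m else 0 := by
    ext j i
    rw [Matrix.mul_apply, sum_eq_single o]
    · rw [R1 o i (by simp [o]; omega)]; simp
    · intro k _ hk
      by_cases h1 : T j k = 0
      · simp [h1]
      · rw [R1 k i (sT _ _ h1).2, if_neg (by tauto), mul_zero]
    · simp
  have m2 : (mx (m + n) a - B) * T = Matrix.of fun j i => if j = t then a 0 m * T o i else 0 := by
    ext j i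
    rw [Matrix.mul_apply, sum_eq_single o]
    · rw [R2, R1 o j (by simp [o]; omega)]; simp
    · intro k _ hk
      by_cases h1 : T k i = 0
      · simp [h1]
      · rw [R2, R1 k j (sT _ _ h1).1, if_neg (by tauto), zero_mul]
    · simp
  rw [m1, m2] at e3
  simp only [trace, diag_apply, Matrix.mul_apply, of_apply, mul_ite, mul_zero, sum_ite_eq',
    mem_univ, if_true] at e3
  rw [sum_comm] at e3
  simp only [sum_ite_eq', mem_univ, if_true] at e3
  have g := h.nz 0 m (by omega) (by omega) (by unfold adj rel; omega)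
  apply mul_left_cancel₀ g
  simp only [Matrix.mulVec, dotProduct, Matrix.sub_apply, transpose_apply, sub_mul,
    sum_sub_distrib, mul_sub, mul_sum, mul_zero, col]
  rw [sub_eq_zero]
  calc _ = ∑ i, mx (m + n) x i t * (a 0 m * T o i) := sum_congr rfl fun i _ => by
        simp only [mx, of_apply, t]; ring
    _ = _ := e3.symm
    _ = _ := sum_congr rfl fun i _ => by simp only [mx, of_apply, t, h.sx m]; ring

def Psi (m n : ℕ) (a : ℕ → ℕ → ℝ) (hm : 3 ≤ m) (y : Fin (m + n) → ℝ) : Prop :=
  ∀ e, a 0 1 * (JJ m n a ^ e *ᵥ y) ⟨1, by omega⟩ =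
    a 0 (m - 1) * (JJ m n a ^ e *ᵥ y) ⟨m - 1, by omega⟩

theorem Hyp.psiA (h : Hyp m n a x) (hm : 3 ≤ m) (hn : 1 ≤ n) :
    Psi m n a hm (col (m + n) x m) := by
  set o : Fin (m + n) := ⟨0, by omega⟩
  have key : ∀ e, (JJ m n a ^ e *ᵥ col (m + n) x m) o = 0 ∧
      Phi o (DD m n a) (NN m n a) (JJ m n a ^ e *ᵥ col (m + n) x m) := by
    intro e
    induction e with
    | zero => exact ⟨by simpa [col, o] using h.ch hm (Or.inl rfl) (Or.inr le_rfl),
        by simpa using h.phiA hm hn⟩
    | succ e ih =>
      rw [pow_succ', ← Matrix.mulVec_mulVec]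
      generalize JJ m n a ^ e *ᵥ col (m + n) x m = y at ih
      refine ⟨by simp [JJ, mx, Matrix.mulVec, dotProduct, o], ?_⟩
      convert ih.2.step o deg_DD DD_tr deg_NN ih.1
        (((DD m n a + NN m n a + (NN m n a)ᵀ) *ᵥ y) o) using 1
      ext i
      rw [Pi.sub_apply]
      by_cases hi : i = o
      · subst hi
        simp [JJ, mx, Matrix.mulVec, dotProduct, o]
      · rw [h.BB hm]
        simp only [Pi.smul_apply, Pi.single_eq_of_ne hi, smul_zero, sub_zero, JJ, mx,
          Matrix.mulVec, dotProduct, of_apply]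
        refine sum_congr rfl fun j _ => ?_
        by_cases hj : j = o
        · rw [hj, ih.1, mul_zero, mul_zero]
        · have : i.val ≠ 0 := fun hh => hi (Fin.ext hh)
          have : j.val ≠ 0 := fun hh => hj (Fin.ext hh)
          congr 1
          split_ifs <;> first | rfl | omega
  intro e
  have := (key e).2.delta o deg_DD DD_tr deg_NN (key e).1
  generalize JJ m n a ^ e *ᵥ col (m + n) x m = y at this
  rw [Matrix.sub_mulVec, Pi.sub_apply, sub_eq_zero, Matrix.mulVec, Matrix.mulVec, dotProduct,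
    dotProduct, sum_eq_single ⟨1, by omega⟩, sum_eq_single ⟨m - 1, by omega⟩] at this
  · simp only [NN, mx, of_apply, transpose_apply, o] at this
    rwa [if_pos (by simp; omega), if_pos (by simp; omega), h.sa (m - 1)] at this
  · intro j _ hj
    have : j.val ≠ m - 1 := fun hh => hj (Fin.ext hh)
    simp only [NN, mx, of_apply, transpose_apply, o]
    rw [if_neg (by omega), zero_mul]
  · simp
  · intro j _ hj
    have : j.val ≠ 1 := fun hh => hj (Fin.ext hh)
    simp only [NN, mx, of_apply, o]
    rw [if_neg (by omega), zero_mul]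
  · simp

theorem Hyp.psiB (h : Hyp m n a x) (hm : 3 ≤ m) : Psi m n a hm (col (m + n) x 0) := by
  intro e
  set o : Fin (m + n) := ⟨0, by omega⟩
  set u : Fin (m + n) := ⟨1, by omega⟩
  set w : Fin (m + n) := ⟨m - 1, by omega⟩
  set J := JJ m n a with hJ
  have sJ : ∀ i j, J i j ≠ 0 → (1 ≤ i.val ∧ i.val < m ∧ 1 ≤ j.val ∧ j.val < m) ∧
      i.val ≤ j + 1 ∧ j.val ≤ i + 1 := by
    intro i j hij
    simp only [hJ, JJ, mx, of_apply, ne_eq, ite_eq_right_iff, Classical.not_imp] at hij
    refine ⟨hij.1, ?_⟩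
    by_contra hc
    exact hij.2 (h.za _ _ (by omega) (by unfold adj rel; omega))
  have Jt : Jᵀ = J := by
    ext i j
    simp only [hJ, JJ, mx, of_apply, transpose_apply, h.sa j i]
    split_ifs <;> first | rfl | omega
  have sH : ∀ e i j, (J ^ e) i j ≠ 0 →
      i = j ∨ (1 ≤ i.val ∧ i.val < m ∧ 1 ≤ j.val ∧ j.val < m) := by
    intro e
    induction e with
    | zero => intro i j hij; by_contra hc; exact hij (Matrix.one_apply_ne (by tauto))
    | succ e ih =>
      intro i j hij
      rw [pow_succ, Matrix.mul_apply] at hij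
      obtain ⟨p, -, hp⟩ := exists_ne_zero_of_sum_ne_zero hij
      have := (sJ _ _ (right_ne_zero_of_mul hp)).1
      rcases ih _ _ (left_ne_zero_of_mul hp) with rfl | h1
      · exact Or.inr this
      · omega
  set H := J ^ e with hH
  have Ht : ∀ i j, H i j = H j i := fun i j => by
    have : Hᵀ = H := by rw [hH, transpose_pow, Jt]
    exact congrFun (congrFun this j) i
  set U : Matrix (Fin (m + n)) (Fin (m + n)) ℝ := of fun i j => if i < j then H i j else 0 with hU
  set V : Matrix (Fin (m + n)) (Fin (m + n)) ℝ := of fun i j => if i < j then 0 else H i j with hV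
  have sU : ∀ i j, U i j ≠ 0 → (1 ≤ i.val ∧ j.val < m) ∧ i.val < j := by
    intro i j hij
    simp only [hU, of_apply, ne_eq, ite_eq_right_iff, Classical.not_imp] at hij
    have := hij.1
    rcases sH e i j hij.2 with rfl | h1
    · simp at this
    · exact ⟨by omega, this⟩
  have sV : ∀ i j, V i j ≠ 0 → j.val ≤ i := by
    intro i j hij
    simp only [hV, of_apply, ne_eq, ite_eq_left_iff, Classical.not_imp] at hij
    exact not_lt.1 hij.1
  have e1 : J * U - U * J = V * J - J * V := by
    have h1 : U + V = H := by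
      ext i j; simp only [hU, hV, Matrix.add_apply, of_apply]; split_ifs <;> simp
    have h2 : J * (U + V) = (U + V) * J := by rw [h1, hH, ← pow_succ, ← pow_succ']
    linear_combination (norm := noncomm_ring) h2
  have pr : ∀ {P Q : Matrix (Fin (m + n)) (Fin (m + n)) ℝ} {i j}, (P * Q) i j ≠ 0 →
      ∃ k, P i k ≠ 0 ∧ Q k j ≠ 0 := by
    intro P Q i j hij
    rw [Matrix.mul_apply] at hij
    obtain ⟨p, -, hp⟩ := exists_ne_zero_of_sum_ne_zero hij
    exact ⟨p, left_ne_zero_of_mul hp, right_ne_zero_of_mul hp⟩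
  have sb : ∀ {P Q : Matrix (Fin (m + n)) (Fin (m + n)) ℝ} {i j}, (P - Q) i j ≠ 0 →
      P i j ≠ 0 ∨ Q i j ≠ 0 := by
    intro P Q i j hij
    by_contra hc
    push Not at hc
    simp [hc.1, hc.2] at hij
  have e3 := tr_lemma (B := J) (R := mx (m + n) a - J) (T := U) h.comm (by abel) (h.tr0 (by
    intro i j hij
    have b1 : j.val < m := by
      rcases sb hij with h1 | h1 <;> obtain ⟨k, k1, k2⟩ := pr h1
      · have := sU _ _ k2; omega
      · have := sJ _ _ k2; omega
    have b2 : i.val ≤ j := by
      rcases sb hij with h1 | h1 <;> obtain ⟨k, k1, k2⟩ := pr h1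
      · have := sU _ _ k2; have := sJ _ _ k1; omega
      · have := sJ _ _ k2; have := sU _ _ k1; omega
    have b3 : j.val ≤ i + 1 := by
      rw [e1] at hij
      rcases sb hij with h1 | h1 <;> obtain ⟨k, k1, k2⟩ := pr h1
      · have := sJ _ _ k2; have := sV _ _ k1; omega
      · have := sV _ _ k2; have := sJ _ _ k1; omega
    by_cases h1 : i.val = j
    · exact Or.inl (Fin.ext h1)
    · right; unfold adj rel; omega))
  have R1 : ∀ k i : Fin (m + n), 1 ≤ k.val → k.val < m → (mx (m + n) a - J) k i =
      if i = o then a 0 k else 0 := by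
    intro k i hk hk'
    simp only [hJ, JJ, mx, Matrix.sub_apply, of_apply, Fin.ext_iff, o]
    have := h.za k i
    unfold adj rel at this
    split_ifs with h1 h2 h2
    · omega
    · simp
    · rw [h2, h.sa]; simp
    · rw [this (by omega) (by omega)]; simp
  have R2 : ∀ k i : Fin (m + n), (mx (m + n) a - J) k i = (mx (m + n) a - J) i k := by
    intro k i
    have := congrFun (congrFun Jt i) k
    simp only [transpose_apply] at this
    simp only [mx, Matrix.sub_apply, of_apply, h.sa k i, this]
  have a0 : ∀ k : Fin (m + n), 2 ≤ k.val → k.val < m → k ≠ w → a 0 k = 0 := fun k h1 h2 h3 => by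
    have : k.val ≠ m - 1 := fun hh => h3 (Fin.ext hh)
    exact h.za _ _ (by omega) (by unfold adj rel; omega)
  have m1 : U * (mx (m + n) a - J) =
      Matrix.of fun j i => if i = o then U j w * a 0 (m - 1) else 0 := by
    ext j i
    rw [Matrix.mul_apply, sum_eq_single w]
    · rw [R1 w i (by simp only [w]; omega) (by simp only [w]; omega)]; simp [w]
    · intro k _ hk
      by_cases h1 : U j k = 0
      · simp [h1]
      · have := sU _ _ h1
        rw [R1 k i (by omega) (by omega), a0 k (by omega) (by omega) hk]; simp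
    · simp
  have m2 : (mx (m + n) a - J) * U =
      Matrix.of fun j i => if j = o then a 0 1 * U u i else 0 := by
    ext j i
    rw [Matrix.mul_apply, sum_eq_single u]
    · rw [R2, R1 u j (by simp only [u]; omega) (by simp only [u]; omega)]; simp [u]
    · intro k _ hk
      by_cases h1 : U k i = 0
      · simp [h1]
      · have := sU _ _ h1
        have : k.val ≠ 1 := fun hh => hk (Fin.ext hh)
        rw [R2, R1 k j (by omega) (by omega), a0 k (by omega) (by omega)
          (fun hh => by simp only [hh, w] at *; omega)]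
        simp
    · simp
  rw [m1, m2] at e3
  simp only [trace, diag_apply, Matrix.mul_apply, of_apply, mul_ite, mul_zero, sum_ite_eq',
    mem_univ, if_true] at e3
  rw [sum_comm] at e3
  simp only [sum_ite_eq', mem_univ, if_true] at e3
  simp only [Matrix.mulVec, dotProduct, mul_sum, col]
  calc _ = ∑ i, mx (m + n) x i o * (a 0 1 * U u i) := sum_congr rfl fun i _ => by
        simp only [mx, of_apply, o, hU]
        split_ifs with h1
        · ring
        · by_cases h2 : H u i = 0
          · simp [h2]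
          · have : i.val = 1 := by
              have : i.val ≤ 1 := not_lt.1 h1
              rcases sH e _ _ h2 with h3 | h3
              · rw [← h3]
              · omega
            rw [this, h.xe 1 0 (by unfold adj rel; omega)]; simp
    _ = _ := e3.symm
    _ = _ := sum_congr rfl fun i _ => by
        simp only [mx, of_apply, o, hU, h.sx 0, Ht w]
        split_ifs with h1
        · ring
        · by_cases h2 : H i w = 0
          · simp [h2]
          · have : i.val = m - 1 := by
              have : m - 1 ≤ i.val := not_lt.1 h1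
              rcases sH e _ _ h2 with h3 | h3
              · rw [h3]
              · omega
            rw [this, h.xe (m - 1) 0 (by unfold adj rel; omega)]; simp

theorem Hyp.colT (h : Hyp m n a x) (hm : 3 ≤ m) {p : ℕ} (hp : m ≤ p) (i : ℕ) :
    ∑ k ∈ range (m + n), a i k * x k p =
      a p (prv m p) * x i (prv m p) + a p p * x i p + a p (p + 1) * x i (p + 1) := by
  rw [h.cm, h.rowT hm hp, h.sx i, h.sx i, h.sx i]

theorem prv_ch {m p : ℕ} (hp : m ≤ p) : prv m p = 0 ∨ m ≤ prv m p := by
  unfold prv; split_ifs <;> omega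

theorem Hyp.ends (h : Hyp m n a x) (hm : 3 ≤ m) (hn : 1 ≤ n) {p : ℕ} (hp : p = 0 ∨ m ≤ p) :
    x 1 p = 0 ∧ x (m - 1) p = 0 := by
  rcases hp with rfl | hp
  · exact ⟨h.xe 1 0 (by unfold adj rel; omega), h.xe _ 0 (by unfold adj rel; omega)⟩
  have rc : ∀ p, m ≤ p → JJ m n a *ᵥ col (m + n) x p = a p (prv m p) • col (m + n) x (prv m p) +
      a p p • col (m + n) x p + a p (p + 1) • col (m + n) x (p + 1) := by
    intro p hp
    ext i
    have := mx_mulVec (N := m + n) (fun i j => if 1 ≤ i ∧ i < m ∧ 1 ≤ j ∧ j < m then a i j else 0)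
      (fun k => x k p) i
    refine this.trans ?_
    simp only [Pi.add_apply, Pi.smul_apply, col, smul_eq_mul]
    by_cases hi : 1 ≤ i.val ∧ i.val < m
    · rw [← h.colT hm hp]
      refine sum_congr rfl fun k _ => ?_
      split_ifs with h1
      · rfl
      · by_cases h2 : k = 0
        · rw [h.ch hm (Or.inl h2) (Or.inr hp)]; simp
        · rw [h.za i k (by omega) (by unfold adj rel; omega)]
    · rw [h.ch hm (by omega) (prv_ch hp), h.ch hm (by omega) (Or.inr hp),
        h.ch hm (by omega) (Or.inr (by omega))]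
      simp only [mul_zero, add_zero]
      exact sum_eq_zero fun k _ => by rw [if_neg (by tauto), zero_mul]
  have key : ∀ k, Psi m n a hm (col (m + n) x (prv m (m + k))) ∧
      Psi m n a hm (col (m + n) x (m + k)) := by
    intro k
    induction k with
    | zero => exact ⟨by simpa [prv] using h.psiB hm, h.psiA hm hn⟩
    | succ k ih =>
      refine ⟨by rw [show prv m (m + (k + 1)) = m + k by unfold prv; split_ifs <;> omega]; exact ih.2,
        fun e => ?_⟩
      by_cases hk : m + n ≤ m + k + 1
      · have : col (m + n) x (m + (k + 1)) = 0 := by ext i; exact h.ox _ _ hk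
        simp [this]
      have g := h.nz (m + k) (m + k + 1) (by omega) (by omega) (by unfold adj rel; omega)
      have a1 := ih.2 (e + 1)
      rw [pow_succ, ← Matrix.mulVec_mulVec, rc _ (by omega)] at a1
      simp only [Matrix.mulVec_add, Matrix.mulVec_smul, Pi.add_apply, Pi.smul_apply,
        smul_eq_mul] at a1
      apply mul_left_cancel₀ g
      rw [← add_assoc]
      linear_combination a1 - a (m + k) (prv m (m + k)) * ih.1 e - a (m + k) (m + k) * ih.2 e
  obtain ⟨k, rfl⟩ : ∃ k, p = m + k := ⟨p - m, by omega⟩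
  have a1 := (key k).2 0
  simp only [pow_zero, Matrix.one_mulVec, col] at a1
  have a2 := h.colT hm hp 0
  rw [h.row0 hm, h.ch hm (Or.inl rfl) (prv_ch hp), h.ch hm (Or.inl rfl) (Or.inr hp),
    h.ch hm (Or.inl rfl) (Or.inr (by omega)), h.ch hm (Or.inr le_rfl) (Or.inr hp)] at a2
  have g1 := h.nz 0 1 (by omega) (by omega) (by unfold adj rel; omega)
  have g2 := h.nz 0 (m - 1) (by omega) (by omega) (by unfold adj rel; omega)
  exact ⟨mul_left_cancel₀ g1 (by linarith), mul_left_cancel₀ g2 (by linarith)⟩

theorem Hyp.zero (h : Hyp m n a x) (hm : 3 ≤ m) (hn : 1 ≤ n) (hmn : m ≤ 2 * n + 3) (i j : ℕ) :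
    x i j = 0 := by
  set c : ℕ → ℕ := fun k => if k = 0 then 0 else m + k - 1 with hc
  have cc : ∀ k, c k = 0 ∨ m ≤ c k := fun k => by simp only [hc]; split_ifs <;> omega
  have eq : ∀ i k, 1 ≤ i → i < m → 1 ≤ k → x i (c (k - 1)) = 0 → x i (c k) = 0 →
      x i (c (k + 1)) = 0 → a i (i - 1) * x (i - 1) (c k) + a i (nxt m i) * x (nxt m i) (c k) = 0 := by
    intro i k h1 h2 h3 h4 h5 h6
    have e := h.colT hm (p := c k) (by simp only [hc]; split_ifs <;> omega) i
    rw [h.rowS hm h1 h2, show prv m (c k) = c (k - 1) by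
      simp only [hc, prv]; split_ifs <;> omega, show c k + 1 = c (k + 1) by
      simp only [hc]; split_ifs <;> omega, h4, h5, h6] at e
    linarith
  have s1 := sweep (fun k i => x i (c k)) (m - 1) (fun k => h.ch hm (Or.inl rfl) (cc k))
    (fun k => (h.ends hm hn (cc k)).1) (fun i k h1 h2 h3 h4 h5 h6 h7 => by
      have e := eq i k h1 (by omega) h3 h6 h5 h7
      rw [h4, show nxt m i = i + 1 from if_neg (by omega)] at e
      simpa [h.nz i (i + 1) (by omega) (by omega) (by unfold adj rel; omega)] using e)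
  have s2 := sweep (fun k i => x (if i = 0 then 0 else m - i) (c k)) (m - 1)
    (fun k => h.ch hm (Or.inl rfl) (cc k))
    (fun k => (h.ends hm hn (cc k)).2) (fun i k h1 h2 h3 h4 h5 h6 h7 => by
      rw [if_neg (by omega)] at h5 h6 h7 ⊢
      have e := eq (m - i) k (by omega) (by omega) h3 h6 h5 h7
      rw [show nxt m (m - i) = if i - 1 = 0 then 0 else m - (i - 1) by
        unfold nxt; split_ifs <;> omega, h4] at e
      rw [show m - (i + 1) = m - i - 1 by omega]
      simpa [h.nz (m - i) (m - i - 1) (by omega) (by omega) (by unfold adj rel; omega)] using e)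
  have top : ∀ i, x i (c n) = 0 := by
    intro i
    by_cases h1 : i = 0 ∨ m ≤ i
    · exact h.ch hm h1 (cc n)
    by_cases h2 : i ≤ n + 1
    · exact s1 i (by omega) n h2
    · have := s2 (m - i) (by omega) n (by omega)
      rwa [if_neg (by omega), show m - (m - i) = i by omega] at this
  have down : ∀ t ≤ n, (∀ i, x i (c (n - t)) = 0) ∧ ∀ i, x i (c (n - t + 1)) = 0 := by
    intro t
    induction t with
    | zero => exact fun _ => ⟨top, fun i => h.ox _ _ (by simp [hc])⟩
    | succ t ih =>
      intro ht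
      obtain ⟨a1, a2⟩ := ih (by omega)
      refine ⟨fun i => ?_, by rwa [show n - (t + 1) + 1 = n - t by omega]⟩
      have e := h.colT hm (p := c (n - t)) (by simp only [hc]; split_ifs <;> omega) i
      rw [show prv m (c (n - t)) = c (n - (t + 1)) by
        simp only [hc, prv]; split_ifs <;> omega, show c (n - t) + 1 = c (n - t + 1) by
        simp only [hc]; split_ifs <;> omega] at e
      simp only [a1, a2, mul_zero, sum_const_zero, add_zero] at e
      have g := h.nz (c (n - t)) (c (n - (t + 1))) (by simp only [hc]; split_ifs <;> omega)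
        (by simp only [hc]; split_ifs <;> omega)
        (by simp only [hc]; unfold adj rel; split_ifs <;> omega)
      simpa [g] using e.symm
  have cz : ∀ i p, (p = 0 ∨ m ≤ p) → x i p = 0 := by
    intro i p hp
    by_cases h1 : m + n ≤ p
    · exact h.ox _ _ h1
    rcases hp with rfl | hp
    · simpa [hc] using (down n le_rfl).1 i
    · have := (down (m + n - 1 - p) (by omega)).1 i
      rwa [show c (n - (m + n - 1 - p)) = p by simp only [hc]; split_ifs <;> omega] at this
  have key := chain (fun i j => x (i + 1) (j + 1)) (m - 2) (fun i => h.xd _)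
    (fun i hi => h.xe _ _ (by unfold adj rel; omega)) (fun i j h1 h2 h3 h4 h5 h6 => by
      have e := h.cm (i + 1) (j + 1)
      rw [h.rowS hm (by omega) (by omega), h.rowS hm (by omega) (by omega),
        show nxt m (i + 1) = i + 1 + 1 from if_neg (by omega),
        show nxt m (j + 1) = j + 1 + 1 from if_neg (by omega), h4, h5, h.sx (j + 1), h4,
        h.sx (j + 1 - 1), show j + 1 - 1 = j - 1 + 1 by omega, h6, h.sx (j + 1 + 1)] at e
      have p4 : x (i + 1 - 1) (j + 1) = 0 := by
        by_cases h7 : i = 0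
        · rw [h.sx]; exact cz _ _ (by omega)
        · rw [show i + 1 - 1 = i - 1 + 1 by omega]; tauto
      rw [p4] at e
      simpa [h.nz (j + 1) (j + 1 + 1) (by omega) (by omega) (by unfold adj rel; omega)]
        using e.symm)
  by_cases h1 : j = 0 ∨ m ≤ j
  · exact cz _ _ h1
  by_cases h2 : i = 0 ∨ m ≤ i
  · rw [h.sx]; exact cz _ _ h2
  rcases le_total i j with h3 | h3
  · have := key (j - i) (i - 1) (by omega)
    rwa [show i - 1 + 1 = i by omega, show i - 1 + (j - i) + 1 = j by omega] at this
  · have := key (i - j) (j - 1) (by omega)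
    rwa [show j - 1 + 1 = j by omega, show j - 1 + (i - j) + 1 = i by omega, h.sx] at this

end Pool.Agent.H.MP_34deb4_co
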