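import Mathlib

namespace Pool.Agent.H.MP_34deb4_co

open Polynomial Finset

variable {r : ℕ} (μ : Fin r → ℝ)

noncomputable def BB (f g : ℝ[X]) : ℝ := ∑ j, f.eval (μ j) * g.eval (μ j)

noncomputable def PP : ℕ → ℝ[X] × ℝ[X]
  | 0 => (0, 1)
  | k + 1 => ((PP k).2, (X - C (BB μ (X * (PP k).2) (PP k).2 / BB μ (PP k).2 (PP k).2)) * (PP k).2 -
      C (BB μ (PP k).2 (PP k).2 / BB μ (PP k).1 (PP k).1) * (PP k).1)

theorem PP_succ (k : ℕ) : (PP μ (k + 1)).2 =
    (X - C (BB μ (X * (PP μ k).2) (PP μ k).2 / BB μ (PP μ k).2 (PP μ k).2)) * (PP μ k).2 -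
      C (BB μ (PP μ k).2 (PP μ k).2 / BB μ (PP μ k).1 (PP μ k).1) * (PP μ k).1 := rfl

theorem red {p R : ℝ[X]} {k : ℕ} (hp : p.Monic) (hk : p.natDegree = k)
    (hR : ∀ i, k < i → R.coeff i = 0) : ∀ i, k ≤ i → (R - C (R.coeff k) * p).coeff i = 0 := by
  intro i hi
  rw [coeff_sub, coeff_C_mul]
  rcases hi.eq_or_lt with rfl | hi
  · rw [← hk, hp.coeff_natDegree]; ring
  · rw [hR i hi, coeff_eq_zero_of_natDegree_lt (p := p) (by omega)]; ring

theorem PP_monic (k : ℕ) : (PP μ k).2.Monic ∧ (PP μ k).2.natDegree = k ∧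
    (PP μ k).1.degree < k := by
  induction k with
  | zero => simp [PP]
  | succ k ih =>
    obtain ⟨h1, h2, h3⟩ := ih
    have d2 : (PP μ k).2.degree = k := by rw [degree_eq_natDegree h1.ne_zero, h2]
    simp only [PP]
    generalize BB μ (X * (PP μ k).2) (PP μ k).2 / BB μ (PP μ k).2 (PP μ k).2 = s
    generalize BB μ (PP μ k).2 (PP μ k).2 / BB μ (PP μ k).1 (PP μ k).1 = b
    have m1 : ((X - C s) * (PP μ k).2).Monic := (monic_X_sub_C s).mul h1
    have d1 : ((X - C s) * (PP μ k).2).degree = ((k + 1 : ℕ) : WithBot ℕ) := by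
      rw [Polynomial.degree_mul, degree_X_sub_C, d2, add_comm]; rfl
    have d3 : (C b * (PP μ k).1).degree < ((X - C s) * (PP μ k).2).degree := by
      rw [d1, ← smul_eq_C_mul]
      exact ((degree_smul_le _ _).trans_lt h3).trans (by exact_mod_cast Nat.lt_succ_self k)
    refine ⟨m1.sub_of_left d3, ?_, by rw [d2]; exact_mod_cast Nat.lt_succ_self k⟩
    rw [natDegree_eq_of_degree_eq_some ((degree_sub_eq_left_of_degree_lt d3).trans d1)]

variable {μ}

theorem BB_pos (hμ : Function.Injective μ) {k : ℕ} (hk : k < r) :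
    0 < BB μ (PP μ k).2 (PP μ k).2 := by
  obtain ⟨h1, h2, -⟩ := PP_monic μ k
  refine lt_of_le_of_ne (sum_nonneg fun j _ => mul_self_nonneg _) fun h => h1.ne_zero ?_
  refine eq_zero_of_natDegree_lt_card_of_eval_eq_zero _ hμ (fun j => ?_) (by simpa [h2])
  have := (sum_eq_zero_iff_of_nonneg fun j _ => mul_self_nonneg _).1 h.symm j (mem_univ _)
  exact mul_self_eq_zero.1 this

theorem BB_lin (f g p : ℝ[X]) (c : ℝ) : BB μ f g = BB μ f (g - C c * p) + c * BB μ f p := by
  simp only [BB, mul_sum, ← sum_add_distrib, eval_sub, eval_mul, eval_C]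
  exact sum_congr rfl fun j _ => by ring

theorem PP_orth (hμ : Function.Injective μ) : ∀ k ≤ r, ∀ R : ℝ[X],
    (∀ i, k ≤ i → R.coeff i = 0) → BB μ (PP μ k).2 R = 0 := by
  intro k
  induction k using Nat.strong_induction_on with
  | _ k ih =>
    intro hk R hR
    rcases k with _ | k
    · obtain rfl : R = 0 := by ext i; exact hR i (by omega)
      simp [BB]
    have ex : ∀ Q, BB μ (PP μ (k + 1)).2 Q = BB μ (PP μ k).2 (X * Q) -
        BB μ (X * (PP μ k).2) (PP μ k).2 / BB μ (PP μ k).2 (PP μ k).2 * BB μ (PP μ k).2 Q -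
        BB μ (PP μ k).2 (PP μ k).2 / BB μ (PP μ k).1 (PP μ k).1 * BB μ (PP μ k).1 Q := by
      intro Q
      rw [PP]
      generalize BB μ (X * (PP μ k).2) (PP μ k).2 / BB μ (PP μ k).2 (PP μ k).2 = s
      generalize BB μ (PP μ k).2 (PP μ k).2 / BB μ (PP μ k).1 (PP μ k).1 = b
      simp only [BB, mul_sum, ← sum_sub_distrib, eval_sub, eval_mul, eval_C, eval_X]
      exact sum_congr rfl fun j _ => by ring
    obtain ⟨m1, m2, m3⟩ := PP_monic μ k
    have p1 := BB_pos hμ (k := k) (by omega)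
    have hR1 := red m1 m2 (R := R) fun i hi => hR i hi
    rw [BB_lin _ _ (PP μ k).2 (R.coeff k)]
    generalize R - C (R.coeff k) * (PP μ k).2 = R1 at hR1
    have sym : ∀ f g, BB μ f g = BB μ g f := fun f g => sum_congr rfl fun j _ => mul_comm _ _
    have o1 : BB μ (PP μ k).1 (PP μ k).2 = 0 := by
      rw [sym]
      exact ih k (by omega) (by omega) _ fun i hi => coeff_eq_zero_of_degree_lt
        (m3.trans_le (by exact_mod_cast hi))
    have e1 : BB μ (PP μ (k + 1)).2 (PP μ k).2 = 0 := by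
      rw [ex, o1, sym _ (X * _)]
      field_simp
      ring
    rw [e1, ex, ih k (by omega) (by omega) R1 hR1]
    rcases k with _ | k
    · obtain rfl : R1 = 0 := by ext i; exact hR1 i (by omega)
      simp [BB]
    obtain ⟨n1, n2, -⟩ := PP_monic μ k
    have p2 := BB_pos hμ (k := k) (by omega)
    have a1 := red m1 m2 (R := X * R1) fun i hi => by
      obtain ⟨i, rfl⟩ : ∃ j, i = j + 1 := ⟨i - 1, by omega⟩
      rw [coeff_X_mul]; exact hR1 i (by omega)
    have a2 := red n1 n2 (R := R1) fun i hi => hR1 i hi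
    have e2 : (PP μ (k + 1)).1 = (PP μ k).2 := rfl
    rw [BB_lin _ (X * R1) (PP μ (k + 1)).2 ((X * R1).coeff (k + 1)),
      ih (k + 1) (by omega) (by omega) _ a1, e2, BB_lin (PP μ k).2 R1 (PP μ k).2 (R1.coeff k),
      ih k (by omega) (by omega) _ a2, coeff_X_mul]
    field_simp
    ring

theorem PP_top (hμ : Function.Injective μ) (j : Fin r) : (PP μ r).2.eval (μ j) = 0 := by
  have := PP_orth hμ r le_rfl (∏ i ∈ univ.erase j, (X - C (μ i))) (fun i hi => by
    apply coeff_eq_zero_of_natDegree_lt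
    rw [natDegree_prod_of_monic _ _ fun i _ => monic_X_sub_C _]
    have := j.2
    simp
    omega)
  rw [BB, sum_eq_single j] at this
  · refine (mul_eq_zero.1 this).resolve_right ?_
    rw [eval_prod]
    refine prod_ne_zero_iff.2 fun i hi => ?_
    simpa [sub_eq_zero] using fun h => (mem_erase.1 hi).1 (hμ h).symm
  · intro i _ hi
    rw [eval_prod, prod_eq_zero (mem_erase.2 ⟨hi, mem_univ i⟩) (by simp), mul_zero]
  · simp

theorem jacobi {n : ℕ} {μ : Fin (n + 1) → ℝ} (hμ : Function.Injective μ) (h2 : ∀ j, μ j < 2) :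
    ∃ (s g : ℕ → ℝ) (h : Fin (n + 1) → ℕ → ℝ) (w : ℕ → ℝ), (∀ k < n, g k ≠ 0) ∧
      (∀ j, h j 0 ≠ 0) ∧ (∀ j, h j (n + 1) = 0) ∧ (∀ j, μ j * h j 0 = s 0 * h j 0 + g 0 * h j 1) ∧
      (∀ j, ∀ k < n, μ j * h j (k + 1) =
        g k * h j k + s (k + 1) * h j (k + 1) + g (k + 1) * h j (k + 2)) ∧
      0 < w 0 ∧ w (n + 1) = 0 ∧ 2 * w 0 = s 0 * w 0 + g 0 * w 1 + 1 ∧
      ∀ k < n, 2 * w (k + 1) = g k * w k + s (k + 1) * w (k + 1) + g (k + 1) * w (k + 2) := by
  set q : ℕ → ℝ := fun k => √(BB μ (PP μ k).2 (PP μ k).2) with hq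
  have q0 : ∀ k ≤ n, 0 < q k := fun k hk => Real.sqrt_pos.2 (BB_pos hμ (by omega))
  have q2 : ∀ k ≤ n, BB μ (PP μ k).2 (PP μ k).2 = q k * q k := fun k hk =>
    (Real.mul_self_sqrt (BB_pos hμ (by omega)).le).symm
  set s : ℕ → ℝ := fun k => BB μ (X * (PP μ k).2) (PP μ k).2 / BB μ (PP μ k).2 (PP μ k).2
  set g : ℕ → ℝ := fun k => q (k + 1) / q k with hg
  set h : Fin (n + 1) → ℕ → ℝ := fun j k => (PP μ k).2.eval (μ j) / q k with hh
  have up : ∀ j, ∀ k ≤ n, g k * h j (k + 1) = (PP μ (k + 1)).2.eval (μ j) / q k := by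
    intro j k hk
    simp only [hg, hh]
    rcases hk.eq_or_lt with rfl | hk
    · simp [PP_top hμ j]
    · have := q0 (k + 1) hk
      field_simp
  have e0 : ∀ j, μ j * h j 0 = s 0 * h j 0 + g 0 * h j 1 := by
    intro j
    rw [up j 0 (by omega)]
    simp only [hh]
    rw [PP_succ μ 0]
    simp only [eval_sub, eval_mul, eval_C, eval_X, show (PP μ 0).1 = 0 from rfl, eval_zero, s]
    ring
  have e1 : ∀ j, ∀ k < n, μ j * h j (k + 1) =
      g k * h j k + s (k + 1) * h j (k + 1) + g (k + 1) * h j (k + 2) := by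
    intro j k hk
    rw [up j (k + 1) hk]
    simp only [hh, hg]
    rw [PP_succ μ (k + 1)]
    simp only [eval_sub, eval_mul, eval_C, eval_X, show (PP μ (k + 1)).1 = (PP μ k).2 from rfl, s]
    rw [q2 k hk.le, q2 (k + 1) hk]
    have := q0 k hk.le
    have := q0 (k + 1) hk
    field_simp
    ring
  have h0 : ∀ j, h j 0 = 1 / q 0 := fun j => by simp [hh, PP]
  have ht : ∀ j, h j (n + 1) = 0 := fun j => by simp [hh, PP_top hμ j]
  have ort : ∀ k ≤ n, ∑ j, h j 0 * h j k = if k = 0 then 1 else 0 := by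
    intro k hk
    have : ∑ j, h j 0 * h j k = BB μ (PP μ k).2 (PP μ 0).2 / (q 0 * q k) := by
      simp only [BB, sum_div, hh]
      exact sum_congr rfl fun j _ => by ring
    rw [this]
    split_ifs with h1
    · subst h1
      have := q0 0 hk
      rw [q2 0 hk]; field_simp
    · rw [PP_orth hμ k (by omega) _ fun i hi => by
        simp only [PP]; rw [coeff_one, if_neg (by omega)], zero_div]
  have q00 := q0 0 (by omega)
  refine ⟨s, g, h, fun k => ∑ j, h j 0 * h j k / (2 - μ j), fun k hk => ?_, fun j => ?_, ht, e0, e1,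
    ?_, by simp [ht], ?_, fun k hk => ?_⟩
  · exact div_ne_zero (q0 _ hk).ne' (q0 _ hk.le).ne'
  · rw [h0]; positivity
  · refine sum_pos (fun j _ => ?_) univ_nonempty
    have := h2 j
    rw [h0]
    exact div_pos (by positivity) (by linarith)
  · have := ort 0 (by omega)
    rw [if_pos rfl] at this
    rw [← this]
    simp only [mul_sum, ← sum_add_distrib]
    refine sum_congr rfl fun j _ => ?_
    have : 2 - μ j ≠ 0 := by linarith [h2 j]
    field_simp
    linear_combination (h j 0) * e0 j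
  · have := ort (k + 1) hk
    rw [if_neg (by omega)] at this
    rw [← add_zero (_ + _ + _), ← this]
    simp only [mul_sum, ← sum_add_distrib]
    refine sum_congr rfl fun j _ => ?_
    have : 2 - μ j ≠ 0 := by linarith [h2 j]
    field_simp
    linear_combination (h j 0) * e1 j k hk

end Pool.Agent.H.MP_34deb4_co
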