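import Pool.Agent.H.MP_34deb4_co.B
import Pool.Agent.H.MP_34deb4_co.C

namespace Pool.Agent.H.MP_34deb4_co

open Matrix Finset

def flip (m : ℕ) (a : ℕ → ℕ → ℝ) (i j : ℕ) : ℝ :=
  if (i = 0 ∧ j + 1 = m) ∨ (j = 0 ∧ i + 1 = m) then - a i j else a i j

def rho (m i : ℕ) : ℕ := if i < m then i else 0

def sg (m i j : ℕ) : ℝ := if rho m i < rho m j then 1 else if rho m j < rho m i then -1 else 0

theorem sg_anti (m i j : ℕ) : sg m j i = - sg m i j := by
  unfold sg; split_ifs <;> first | omega | simp

variable {m N : ℕ} {a : ℕ → ℕ → ℝ}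

theorem Pat.flip (h : Pat m N a) : Pat m N (flip m a) :=
  ⟨fun i j h1 h2 => by simp [MP_34deb4_co.flip, h.za i j h1 h2],
    fun i j h1 => by simp [MP_34deb4_co.flip, h.oa i j h1]⟩

theorem keyY (h : Pat m N a) (hm : 3 ≤ m) {l : ℝ} {u v : ℕ → ℝ}
    (hu : ∀ i < N, ∑ k ∈ range N, flip m a i k * u k = l * u i)
    (hv : ∀ i < N, ∑ k ∈ range N, flip m a i k * v k = l * v i)
    (u0 : ∀ p, p = 0 ∨ m ≤ p → u p = 0) {i j : ℕ} (hi : i < N) (hij : i ≠ j) :
    ∑ k ∈ range N, a i k * (sg m k j * (u k * v j - v k * u j)) =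
      l * (sg m i j * (u i * v j - v i * u j)) -
        if i = 0 ∧ m ≤ j then 2 * a 0 1 * (u 1 * v j) else 0 := by
  split_ifs with hc
  · obtain ⟨rfl, hj⟩ := hc
    have e := hu 0 (by omega)
    rw [h.flip.row0 hm, u0 0 (by omega), u0 m (by omega)] at e
    rw [h.row0 hm, u0 0 (by omega), u0 m (by omega), u0 j (by omega)]
    have s1 : sg m 1 j = -1 := by unfold sg rho; split_ifs <;> first | omega | rfl
    have s2 : sg m (m - 1) j = -1 := by unfold sg rho; split_ifs <;> first | omega | rfl
    have f1 : flip m a 0 1 = a 0 1 := if_neg (by omega)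
    have f2 : flip m a 0 (m - 1) = - a 0 (m - 1) := if_pos (by omega)
    rw [f1, f2] at e
    rw [s1, s2]
    linear_combination (v j) * e
  · have : ∀ k ∈ range N, a i k * (sg m k j * (u k * v j - v k * u j)) =
        sg m i j * v j * (flip m a i k * u k) - sg m i j * u j * (flip m a i k * v k) := by
      intro k _
      by_cases h1 : k = j
      · subst h1; ring
      by_cases h2 : (k = 0 ∨ m ≤ k) ∧ (j = 0 ∨ m ≤ j)
      · rw [u0 k h2.1, u0 j h2.2]; ring
      by_cases h3 : i = k
      · subst h3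
        rw [show flip m a i i = a i i from if_neg (by omega)]; ring
      by_cases h4 : adj m i k
      · unfold adj rel at h4
        unfold sg rho flip
        split_ifs <;> first | omega | ring
      · simp [flip, h.za i k h3 h4]
    rw [sum_congr rfl this, sum_sub_distrib, ← mul_sum, ← mul_sum, hu i hi, hv i hi]
    ring

theorem construct {n : ℕ} (h : Pat m (m + n) a) (hm : 3 ≤ m)
    (nz : ∀ i j, i < m + n → j < m + n → adj m i j → a i j ≠ 0)
    (l : Fin (n + 2) → ℝ) (hl : Function.Injective l) (u v : Fin (n + 2) → ℕ → ℝ)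
    (hu : ∀ t, ∀ i < m + n, ∑ k ∈ range (m + n), flip m a i k * u t k = l t * u t i)
    (hv : ∀ t, ∀ i < m + n, ∑ k ∈ range (m + n), flip m a i k * v t k = l t * v t i)
    (u0 : ∀ t p, p = 0 ∨ m ≤ p → u t p = 0) (u1 : ∀ t, u t 1 ≠ 0) (v0 : ∀ t, v t 0 ≠ 0) :
    ∃ x : ℕ → ℕ → ℝ, (∀ i j, x i j = x j i) ∧ (∀ i, x i i = 0) ∧ (∀ i j, adj m i j → x i j = 0) ∧
      (∀ i < m + n, ∀ j < m + n, ∑ k ∈ range (m + n), a i k * x k j =
        ∑ k ∈ range (m + n), a j k * x k i) ∧ ∃ i < m, x i 0 ≠ 0 := by
  obtain ⟨ω, hω, t0, ht0⟩ := Fintype.not_linearIndependent_iff.1 (show ¬ LinearIndependent ℝ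
      fun (t : Fin (n + 2)) (k : Fin (n + 1)) =>
        u t 1 * v t (if k.val = 0 then 0 else m + k - 1) from fun hh => by
    have := hh.fintype_card_le_finrank
    simp at this)
  have hω' : ∀ p < m + n, p = 0 ∨ m ≤ p → ∑ t, ω t * (u t 1 * v t p) = 0 := by
    intro p h1 h2
    rcases h2 with rfl | h2
    · simpa using congrFun hω 0
    · have := congrFun hω ⟨p - m + 1, by omega⟩
      simp only [Finset.sum_apply, Pi.smul_apply, smul_eq_mul, Pi.zero_apply] at this
      rwa [if_neg (by omega), show m + (p - m + 1) - 1 = p by omega] at this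
  set W : ℕ → ℕ → ℝ := fun i j => ∑ t, ω t * (u t i * v t j - v t i * u t j) with hW
  have Wa : ∀ i j, W j i = - W i j := fun i j => by
    simp only [hW, ← sum_neg_distrib]
    exact sum_congr rfl fun t _ => by ring
  have Wr : ∀ i < m + n, ∑ k ∈ range (m + n), flip m a i k * W k i = 0 := by
    intro i hi
    simp only [hW, mul_sum]
    rw [sum_comm]
    refine sum_eq_zero fun t _ => ?_
    have : ∀ k ∈ range (m + n), flip m a i k * (ω t * (u t k * v t i - v t k * u t i)) =
        ω t * v t i * (flip m a i k * u t k) - ω t * u t i * (flip m a i k * v t k) :=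
      fun k _ => by ring
    rw [sum_congr rfl this, sum_sub_distrib, ← mul_sum, ← mul_sum, hu t i hi, hv t i hi]
    ring
  have Wd : ∀ i, W i i = 0 := fun i => by linarith [Wa i i]
  have Ws : ∀ i, 1 ≤ i → i < m → W (i - 1) i = 0 → W (nxt m i) i = 0 := by
    intro i h1 h2 h3
    have e := Wr i (by omega)
    rw [h.flip.rowS hm h1 h2, h3, Wd] at e
    have g := nz i (nxt m i) (by omega) (by unfold nxt; split_ifs <;> omega)
      (by unfold adj rel nxt; split_ifs <;> omega)
    have g' : flip m a i (nxt m i) ≠ 0 := by unfold flip; split_ifs <;> simpa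
    simpa [g'] using e
  have We : ∀ i, i + 1 < m → W i (i + 1) = 0 := by
    intro i
    induction i with
    | zero =>
      intro _
      rw [Wa, neg_eq_zero, ← hω' 0 (by omega) (Or.inl rfl)]
      exact sum_congr rfl fun t _ => by rw [u0 t 0 (Or.inl rfl)]; simp
    | succ i ih =>
      intro hi
      have := Ws (i + 1) (by omega) (by omega) (ih (by omega))
      rw [show nxt m (i + 1) = i + 1 + 1 from if_neg (by omega)] at this
      rw [Wa, this, neg_zero]
  have Wl : W 0 (m - 1) = 0 := by
    have := Ws (m - 1) (by omega) (by omega) (by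
      have := We (m - 1 - 1) (by omega)
      rwa [show m - 1 - 1 + 1 = m - 1 by omega] at this)
    rwa [show nxt m (m - 1) = 0 from if_pos (by omega)] at this
  have re : ∀ i j, rel m i j → sg m i j * W i j = 0 := by
    intro i j hr
    by_cases h1 : i + 1 = j ∧ j < m
    · obtain ⟨rfl, h1⟩ := h1
      rw [We i h1, mul_zero]
    by_cases h2 : i = 0 ∧ j + 1 = m
    · obtain ⟨rfl, rfl⟩ := h2
      simp only [add_tsub_cancel_right] at Wl
      rw [Wl, mul_zero]
    · rw [show sg m i j = 0 by unfold rel at hr; unfold sg rho; split_ifs <;> first | omega | rfl,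
        zero_mul]
  have sx : ∀ i j, sg m i j * W i j = sg m j i * W j i := fun i j => by
    rw [sg_anti m i j, Wa i j]; ring
  have kk : ∀ i < m + n, ∀ j < m + n, i ≠ j → ∑ k ∈ range (m + n), a i k * (sg m k j * W k j) =
      ∑ t, ω t * (l t * (sg m i j * (u t i * v t j - v t i * u t j))) := by
    intro i hi j hj hij
    have e : ∀ k ∈ range (m + n), a i k * (sg m k j * W k j) =
        ∑ t, ω t * (a i k * (sg m k j * (u t k * v t j - v t k * u t j))) := fun k _ => by
      simp only [hW, mul_sum]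
      exact sum_congr rfl fun t _ => by ring
    rw [sum_congr rfl e, sum_comm]
    simp only [← mul_sum, fun t => keyY h hm (hu t) (hv t) (u0 t) hi hij]
    simp only [mul_sub (ω _), sum_sub_distrib]
    split_ifs with hc
    · have := hω' j hj (Or.inr hc.2)
      have e2 : ∑ t, ω t * (2 * a 0 1 * (u t 1 * v t j)) = 2 * a 0 1 * ∑ t, ω t * (u t 1 * v t j) := by
        rw [mul_sum]; exact sum_congr rfl fun t _ => by ring
      rw [e2, this]; ring
    · simp
  refine ⟨fun i j => sg m i j * W i j, sx, fun i => by simp [Wd], fun i j hh => ?_,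
    fun i hi j hj => ?_, ?_⟩
  · rcases hh.2 with h1 | h1
    · exact re i j h1
    · exact (sx i j).trans (re j i h1)
  · by_cases hij : i = j
    · rw [hij]
    rw [kk i hi j hj hij, kk j hj i hi (Ne.symm hij), sg_anti m i j]
    exact sum_congr rfl fun t _ => by ring
  · by_contra hc
    push Not at hc
    have li := Module.End.eigenvectors_linearIndependent' (Matrix.toLin' (mx (m + n) (flip m a))) l
      hl (fun t (k : Fin (m + n)) => u t k) (fun t => by
        rw [Module.End.hasEigenvector_iff, Module.End.mem_eigenspace_iff]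
        refine ⟨?_, fun hh => u1 t (congrFun hh ⟨1, by omega⟩)⟩
        ext i
        rw [Matrix.toLin'_apply, mx_mulVec, hu t i i.2]
        rfl)
    refine ht0 ((mul_eq_zero.1 (Fintype.linearIndependent_iff.1 li (fun t => ω t * v t 0) ?_ t0)).resolve_right
      (v0 t0))
    ext i
    simp only [Finset.sum_apply, Pi.smul_apply, smul_eq_mul, Pi.zero_apply]
    by_cases h1 : i.val = 0 ∨ m ≤ i.val
    · simp [u0 _ _ h1]
    have := hc i (by omega)
    rw [show sg m i 0 = -1 by unfold sg rho; split_ifs <;> first | omega | rfl] at this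
    rw [← neg_eq_zero, ← this, neg_one_mul, neg_inj]
    exact sum_congr rfl fun t _ => by rw [u0 t 0 (Or.inl rfl)]; ring

open Classical in
noncomputable def aa (m n : ℕ) (s g : ℕ → ℝ) (α : ℝ) (i j : ℕ) : ℝ :=
  if m + n ≤ i ∨ m + n ≤ j then 0 else if i = j then
    (if i = 0 then s 0 + α ^ 2 else if i = 1 ∨ i + 1 = m then 1 else if i < m then 0
      else s (i - m + 1))
  else if adj m i j then (if m ≤ max i j then g (max i j - m) else if min i j = 0 then α else 1)
  else 0

theorem adj_symm {m i j : ℕ} : adj m i j ↔ adj m j i := by unfold adj; tauto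

section conc
variable {n : ℕ} {s g : ℕ → ℝ} {α : ℝ}

theorem aa_pat : Pat m (m + n) (aa m n s g α) :=
  ⟨fun i j h1 h2 => by simp [aa, h1, h2], fun i j h => by simp [aa, h]⟩

theorem aa_symm (i j : ℕ) : aa m n s g α i j = aa m n s g α j i := by
  by_cases h : i = j
  · rw [h]
  · unfold aa
    rw [if_neg h, if_neg (Ne.symm h), max_comm i, min_comm i]
    by_cases h1 : m + n ≤ i ∨ m + n ≤ j
    · rw [if_pos h1, if_pos h1.symm]
    · rw [if_neg h1, if_neg fun h2 => h1 (Or.symm h2)]
      by_cases ha : adj m i j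
      · rw [if_pos ha, if_pos (adj_symm.1 ha)]
      · rw [if_neg ha, if_neg fun h2 => ha (adj_symm.1 h2)]

theorem aa_adj {i j : ℕ} (hi : i < m + n) (hj : j < m + n) (h : adj m i j) : aa m n s g α i j =
    if m ≤ max i j then g (max i j - m) else if min i j = 0 then α else 1 := by
  simp only [aa]
  rw [if_neg (by omega), if_neg h.1, if_pos h]

theorem aa_diag {i : ℕ} (hi : i < m + n) : aa m n s g α i i =
    if i = 0 then s 0 + α ^ 2 else if i = 1 ∨ i + 1 = m then 1 else if i < m then 0
      else s (i - m + 1) := by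
  simp only [aa]
  rw [if_neg (by omega), if_pos trivial]

def vec (m : ℕ) (φ τ : ℕ → ℝ) (i : ℕ) : ℝ :=
  if i = 0 then τ 0 else if i < m then φ i else τ (i - m + 1)

theorem eig (hm : 4 ≤ m) (hn : 1 ≤ n) {l : ℝ} {φ τ : ℕ → ℝ}
    (h1 : ∀ k, l * φ (k + 1) = φ k + φ (k + 2)) (h2 : φ 0 = φ 1 + α * τ 0)
    (h3 : φ m = φ (m - 1) - α * τ 0)
    (h4 : l * τ 0 = (s 0 + α ^ 2) * τ 0 + α * φ 1 - α * φ (m - 1) + g 0 * τ 1)
    (h5 : ∀ k < n, l * τ (k + 1) = g k * τ k + s (k + 1) * τ (k + 1) + g (k + 1) * τ (k + 2))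
    (h6 : τ (n + 1) = 0) : ∀ i < m + n,
    ∑ k ∈ range (m + n), flip m (aa m n s g α) i k * vec m φ τ k = l * vec m φ τ i := by
  intro i hi
  have P := (aa_pat (m := m) (n := n) (s := s) (g := g) (α := α)).flip
  have fl : ∀ i j, ¬ ((i = 0 ∧ j + 1 = m) ∨ (j = 0 ∧ i + 1 = m)) →
      flip m (aa m n s g α) i j = aa m n s g α i j := fun i j h => if_neg h
  have fl' : ∀ i j, ((i = 0 ∧ j + 1 = m) ∨ (j = 0 ∧ i + 1 = m)) →
      flip m (aa m n s g α) i j = - aa m n s g α i j := fun i j h => if_pos h
  have v1 : ∀ k, 1 ≤ k → k < m → vec m φ τ k = φ k := fun k a b => by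
    unfold vec; rw [if_neg (by omega), if_pos b]
  have v2 : ∀ k, vec m φ τ (m + k) = τ (k + 1) := fun k => by
    unfold vec; rw [if_neg (by omega), if_neg (by omega), Nat.add_sub_cancel_left]
  have v0 : vec m φ τ 0 = τ 0 := rfl
  by_cases c0 : i = 0
  · subst c0
    rw [P.row0 (by omega), fl _ _ (by omega), fl _ _ (by omega), fl' _ _ (by omega),
      fl _ _ (by omega), aa_diag hi, aa_adj hi (by omega) (by unfold adj rel; omega),
      aa_adj hi (by omega) (by unfold adj rel; omega),
      aa_adj hi (by omega) (by unfold adj rel; omega), v1 1 (by omega) (by omega),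
      v1 (m - 1) (by omega) (by omega), show vec m φ τ m = τ 1 from v2 0, v0, if_pos rfl,
      if_neg (by omega), if_pos (by omega), if_neg (by omega), if_pos (by omega),
      if_pos (by omega), show max 0 m - m = 0 by omega, h4]
    ring
  by_cases c1 : i < m
  · obtain ⟨k, rfl⟩ : ∃ k, i = k + 1 := ⟨i - 1, by omega⟩
    rw [P.rowS (by omega) (by omega) c1, fl _ _ (by omega), fl _ _ (by omega), aa_diag hi,
      aa_adj hi (by omega) (by unfold adj rel; omega), v1 _ (by omega) c1, h1, if_neg (by omega),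
      if_neg c0, Nat.add_sub_cancel]
    by_cases c2 : k + 1 + 1 = m
    · rw [show nxt m (k + 1) = 0 from if_pos c2, fl' _ _ (by omega),
        aa_adj hi (by omega) (by unfold adj rel; omega), v1 k (by omega) (by omega),
        if_neg (by omega), if_pos (by omega), if_neg (by omega), if_pos (by omega), v0,
        show k + 2 = m by omega, h3, show m - 1 = k + 1 by omega]
      ring
    rw [show nxt m (k + 1) = k + 2 from if_neg c2, fl _ _ (by omega),
      aa_adj hi (by omega) (by unfold adj rel; omega), v1 (k + 2) (by omega) (by omega)]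
    by_cases c3 : k = 0
    · subst c3
      rw [if_pos (by omega), if_pos (by omega), if_neg (by omega), if_neg (by omega), v0, h2]
      ring
    · rw [if_neg (by omega), if_neg (by omega), if_pos c1, if_neg (by omega), if_neg (by omega),
        v1 k (by omega) (by omega)]
      ring
  · obtain ⟨k, rfl⟩ : ∃ k, i = m + k := ⟨i - m, by omega⟩
    have p1 : prv m (m + k) < m + k ∧ adj m (m + k) (prv m (m + k)) ∧
        vec m φ τ (prv m (m + k)) = τ k := by
      rcases k with _ | k
      · simp only [prv, add_zero, if_true]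
        exact ⟨by omega, by unfold adj rel; omega, rfl⟩
      · rw [show prv m (m + (k + 1)) = m + k by unfold prv; split_ifs <;> omega]
        exact ⟨by omega, by unfold adj rel; omega, v2 k⟩
    rw [P.rowT (by omega) (by omega), fl _ _ (by omega), fl _ _ (by omega), fl _ _ (by omega),
      aa_diag hi, aa_adj hi (by omega) p1.2.1, p1.2.2, v2, add_assoc m, v2, if_pos (by omega),
      if_neg c0, if_neg (by omega), if_neg c1, show max (m + k) (prv m (m + k)) - m = k by omega,
      Nat.add_sub_cancel_left, h5 k (by omega)]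
    congr 1
    by_cases c2 : k + 1 = n
    · rw [show k + 1 + 1 = n + 1 by omega, h6, mul_zero, mul_zero]
    · rw [aa_adj hi (by omega) (by unfold adj rel; omega), if_pos (by omega),
        show max (m + k) (m + (k + 1)) - m = k + 1 by omega]

end conc

open Real in
theorem exists_bad {n : ℕ} (hn : 1 ≤ n) (hm : 2 * n + 4 ≤ m) : ∃ a x : ℕ → ℕ → ℝ,
    (∀ i j, a i j = a j i) ∧ (∀ i < m + n, ∀ j < m + n, i ≠ j → (a i j ≠ 0 ↔ adj m i j)) ∧
    (∀ i j, x i j = x j i) ∧ (∀ i, x i i = 0) ∧ (∀ i j, adj m i j → x i j = 0) ∧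
      (∀ i < m + n, ∀ j < m + n, ∑ k ∈ range (m + n), a i k * x k j =
        ∑ k ∈ range (m + n), a j k * x k i) ∧ ∃ i < m, x i 0 ≠ 0 := by
  obtain ⟨M, rfl⟩ : ∃ M, m = M + 1 := ⟨m - 1, by omega⟩
  have hM : (0 : ℝ) < M := by exact_mod_cast (by omega : 0 < M)
  set θ : Fin (n + 1) → ℝ := fun j => 2 * π * (j + 1) / M with hθ
  have t0 : ∀ j, 0 < θ j := fun j => by simp only [hθ]; positivity
  have t1 : ∀ j, θ j < π := fun j => by
    simp only [hθ]
    rw [div_lt_iff₀ hM]
    have : (2 * (j + 1) : ℝ) < M := by exact_mod_cast (by omega : 2 * (j.val + 1) < M)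
    nlinarith [pi_pos]
  have tM : ∀ j, M * θ j = ((j.val + 1 : ℕ) : ℝ) * (2 * π) := fun j => by
    simp only [hθ]; push_cast; field_simp
  have lt2 : ∀ j, 2 * cos (θ j) < 2 := fun j => by
    have := cos_lt_cos_of_nonneg_of_le_pi le_rfl (t1 j).le (t0 j)
    rw [cos_zero] at this
    linarith
  have inj : Function.Injective fun j => 2 * cos (θ j) := by
    intro i j h
    have h1 := injOn_cos ⟨(t0 i).le, (t1 i).le⟩ ⟨(t0 j).le, (t1 j).le⟩ (by simpa using h)
    simp only [hθ] at h1
    field_simp at h1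
    exact Fin.ext (by exact_mod_cast add_right_cancel h1)
  obtain ⟨s, g, h, w, g0, h0, h1, h2, h3, w0, w1, w2, w3⟩ := jacobi inj lt2
  set α := √(1 / (M * w 0)) with hα
  have α0 : 0 < α := sqrt_pos.2 (by positivity)
  have α2 : α ^ 2 * (M * w 0) = 1 := by rw [hα, sq_sqrt (by positivity)]; field_simp
  have nz : ∀ i j, i < M + 1 + n → j < M + 1 + n → adj (M + 1) i j →
      aa (M + 1) n s g α i j ≠ 0 := by
    intro i j hi hj ha
    rw [aa_adj hi hj ha]
    split_ifs
    · exact g0 _ (by omega)
    · exact α0.ne'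
    · exact one_ne_zero
  have sn : ∀ j, 0 < sin (θ j / 2) := fun j =>
    sin_pos_of_pos_of_lt_pi (by linarith [t0 j]) (by linarith [t1 j, pi_pos])
  have cs : ∀ j, 0 < cos (θ j / 2) := fun j =>
    cos_pos_of_mem_Ioo ⟨by linarith [t0 j, pi_pos], by linarith [t1 j]⟩
  refine ⟨aa (M + 1) n s g α, ?_⟩
  simp only [exists_and_left]
  refine ⟨aa_symm, fun i hi j hj hij => ⟨fun hh => ?_, nz i j hi hj⟩, ?_⟩
  · by_contra hc
    exact hh (aa_pat.za i j hij hc)
  refine construct aa_pat (by omega) nz (Fin.cons 2 fun j => 2 * cos (θ j))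
    (Fin.cons_injective_iff.2 ⟨fun ⟨j, hj⟩ => (lt2 j).ne hj, inj⟩)
    (Fin.cons (vec (M + 1) (fun _ => 1) 0) fun j =>
      vec (M + 1) (fun k => cos (k * θ j - θ j / 2)) 0)
    (Fin.cons (vec (M + 1) (fun k => -α * w 0 * (k - (M + 1) / 2)) w) fun j =>
      vec (M + 1) (fun k => -α * h j 0 / (2 * sin (θ j / 2)) * sin (k * θ j - θ j / 2)) (h j))
    (fun t => ?_) (fun t => ?_) (fun t p hp => ?_) (fun t => ?_) (fun t => ?_)
  · refine Fin.cases ?_ (fun j => ?_) t <;> simp only [Fin.cons_zero, Fin.cons_succ]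
    · exact eig (by omega) hn (fun _ => by norm_num) (by simp) (by simp) (by simp) (by simp) rfl
    · refine eig (by omega) hn (fun k => ?_) ?_ ?_ ?_ (by simp) rfl
      · push_cast
        rw [show k * θ j - θ j / 2 = ((k + 1) * θ j - θ j / 2) - θ j by ring,
          show (k + 2) * θ j - θ j / 2 = ((k + 1) * θ j - θ j / 2) + θ j by ring, cos_sub _ (θ j),
          cos_add _ (θ j)]
        ring
      · simp [show θ j - θ j / 2 = θ j / 2 by ring]
      · simp only [Nat.add_sub_cancel, Pi.zero_apply, mul_zero, sub_zero]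
        push_cast
        rw [show (M + 1) * θ j - θ j / 2 = θ j / 2 + M * θ j by ring,
          show M * θ j - θ j / 2 = -(θ j / 2) + M * θ j by ring, tM, cos_add_nat_mul_two_pi,
          cos_add_nat_mul_two_pi, cos_neg]
      · simp only [Nat.add_sub_cancel, Pi.zero_apply, mul_zero]
        push_cast
        rw [show M * θ j - θ j / 2 = -(θ j / 2) + M * θ j by ring, tM, cos_add_nat_mul_two_pi,
          cos_neg, show 1 * θ j - θ j / 2 = θ j / 2 by ring]
        ring
  · refine Fin.cases ?_ (fun j => ?_) t <;> simp only [Fin.cons_zero, Fin.cons_succ]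
    · refine eig (by omega) hn (fun k => by push_cast; ring) (by push_cast; ring) ?_ ?_ w3 w1
      · simp only [Nat.add_sub_cancel]; push_cast; ring
      · simp only [Nat.add_sub_cancel]; push_cast
        linear_combination w2 - α2
    · have := (sn j).ne'
      refine eig (by omega) hn (fun k => ?_) ?_ ?_ ?_ (h3 j) (h1 j)
      · push_cast
        rw [show k * θ j - θ j / 2 = ((k + 1) * θ j - θ j / 2) - θ j by ring,
          show (k + 2) * θ j - θ j / 2 = ((k + 1) * θ j - θ j / 2) + θ j by ring, sin_sub _ (θ j),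
          sin_add _ (θ j)]
        ring
      · push_cast
        rw [show 0 * θ j - θ j / 2 = -(θ j / 2) by ring, show 1 * θ j - θ j / 2 = θ j / 2 by ring,
          sin_neg]
        field_simp
        ring
      · simp only [Nat.add_sub_cancel]
        push_cast
        rw [show (M + 1) * θ j - θ j / 2 = θ j / 2 + M * θ j by ring,
          show M * θ j - θ j / 2 = -(θ j / 2) + M * θ j by ring, tM, sin_add_nat_mul_two_pi,
          sin_add_nat_mul_two_pi, sin_neg]
        field_simp
        ring
      · simp only [Nat.add_sub_cancel]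
        push_cast
        rw [show M * θ j - θ j / 2 = -(θ j / 2) + M * θ j by ring, tM, sin_add_nat_mul_two_pi,
          sin_neg, show 1 * θ j - θ j / 2 = θ j / 2 by ring, h2 j]
        field_simp
        ring
  · refine Fin.cases ?_ (fun j => ?_) t <;> simp only [Fin.cons_zero, Fin.cons_succ, vec] <;>
      split_ifs <;> first | rfl | omega
  · refine Fin.cases ?_ (fun j => ?_) t <;> simp only [Fin.cons_zero, Fin.cons_succ, vec] <;>
      rw [if_neg (by omega), if_pos (by omega)]
    · exact one_ne_zero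
    · push_cast
      rw [show 1 * θ j - θ j / 2 = θ j / 2 by ring]
      exact (cs j).ne'
  · refine Fin.cases ?_ (fun j => ?_) t <;> simp only [Fin.cons_zero, Fin.cons_succ, vec, if_true]
    · exact w0.ne'
    · exact h0 j

end Pool.Agent.H.MP_34deb4_co
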